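import Mathlib

set_option autoImplicit false
set_option maxHeartbeats 400000

namespace Pool.Agent.Results.MP_4cc686_gt.Arrow

open Filter Topology Set TopologicalSpace

/-- the continuous real functions with the topology of pointwise convergence -/
abbrev Cp (X : Type) [TopologicalSpace X] : Type := {f : X → ℝ // Continuous f}

/-- the double arrow line -/
structure DA where
  fst : ℝ
  snd : Bool

open Classical in
noncomputable def step (t : ℝ) (x : DA) : ℝ := if t < x.1 ∨ (t = x.1 ∧ x.2 = true) then 1 else 0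

noncomputable def emb (x : DA) : ℝ × (ℝ → ℝ) := (x.1, fun t => step t x)

noncomputable instance : TopologicalSpace DA := TopologicalSpace.induced emb inferInstance

theorem emb_emb : IsEmbedding emb := ⟨⟨rfl⟩, by
  rintro ⟨s, b⟩ ⟨t, c⟩ h
  obtain rfl : s = t := congrArg Prod.fst h
  have h1 : step s ⟨s, b⟩ = step s ⟨s, c⟩ := congrFun (congrArg Prod.snd h) s
  cases b <;> cases c <;> simp_all [step]⟩

theorem cont_fst : Continuous fun x : DA => x.1 := 
  continuous_fst.comp (g := Prod.fst) emb_emb.continuous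

theorem cont_step (t : ℝ) : Continuous (step t) :=
  (continuous_apply t).comp (continuous_snd.comp emb_emb.continuous)

theorem tend_right (t : ℝ) (b : Bool) :
    Tendsto (fun s : ℝ => DA.mk s b) (𝓝[>] t) (𝓝 (DA.mk t true)) := by
  refine emb_emb.tendsto_nhds_iff.2 (Tendsto.prodMk_nhds nhdsWithin_le_nhds
    (tendsto_pi_nhds.2 fun r => tendsto_const_nhds.congr' ?_))
  rcases le_or_gt r t with h | h
  · filter_upwards [self_mem_nhdsWithin] with s hs
    simp [step, h.trans_lt hs, h.lt_or_eq]
  · filter_upwards [Ioo_mem_nhdsGT h] with s hs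
    simp [step, h.not_gt, h.ne', hs.2.not_gt, hs.2.ne']

theorem tend_left (t : ℝ) (b : Bool) :
    Tendsto (fun s : ℝ => DA.mk s b) (𝓝[<] t) (𝓝 (DA.mk t false)) := by
  refine emb_emb.tendsto_nhds_iff.2 (Tendsto.prodMk_nhds nhdsWithin_le_nhds
    (tendsto_pi_nhds.2 fun r => tendsto_const_nhds.congr' ?_))
  rcases le_or_gt t r with h | h
  · filter_upwards [self_mem_nhdsWithin] with s hs
    have := lt_of_lt_of_le hs h
    simp [step, h.not_gt, this.not_gt, this.ne']
  · filter_upwards [Ioo_mem_nhdsLT h] with s hs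
    simp [step, h, hs.1]

theorem hsep (A : Set DA) : SeparableSpace A := by
  obtain ⟨T, h1, h2, h3⟩ := 
    (IsSeparable.of_separableSpace ((fun x : DA => x.1) '' A)).exists_countable_dense_subset
  set P := (fun x : DA => x.1) '' A
  have h4 := (h2.union (countable_setOfPred_isolated_right_within (s := P))).union
    (countable_setOfPred_isolated_left_within (s := P))
  set E := T ∪ {x ∈ P | 𝓝[P ∩ Ioi x] x = ⊥} ∪ {x ∈ P | 𝓝[P ∩ Iio x] x = ⊥}
  have h5 : {x : DA | x.1 ∈ E}.Countable :=
    ((h4.prod (countable_univ (α := Bool))).image fun q => DA.mk q.1 q.2).mono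
      fun x hx => mem_image_of_mem _ (show (x.1, x.2) ∈ E ×ˢ univ from ⟨hx, trivial⟩)
  refine ⟨⟨Subtype.val ⁻¹' {x : DA | x.1 ∈ E}, h5.preimage Subtype.val_injective, ?_⟩⟩
  rw [Subtype.dense_iff, Subtype.image_preimage_coe]
  have key : ∀ (t : ℝ) (O : Set ℝ) (x : DA), IsOpen O → 𝓝[P ∩ O] t ≠ ⊥ →
      (∀ b, Tendsto (fun s : ℝ => DA.mk s b) (𝓝[O] t) (𝓝 x)) →
      x ∈ closure (A ∩ {x : DA | x.1 ∈ E}) := by
    intro t O x hO a1 a2
    have a3 : t ∈ closure (T ∩ O) := closure_minimal
      (fun y (hy : y ∈ P ∩ O) => hO.closure_inter ⟨h3 hy.1, hy.2⟩) isClosed_closure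
      (mem_closure_iff_nhdsWithin_neBot.2 ⟨a1⟩)
    have a4 := mem_closure_iff_nhdsWithin_neBot.1 a3
    refine mem_closure_iff_nhds.2 fun U hU => ?_
    obtain ⟨s, a5, a6, a7⟩ := (((((a2 true).eventually_mem hU).and
      ((a2 false).eventually_mem hU)).filter_mono (nhdsWithin_mono t
        (inter_subset_right (s := T)))).and self_mem_nhdsWithin).exists
    obtain ⟨⟨_, b⟩, a8, rfl⟩ := h1 a6
    exact ⟨_, by cases b; exacts [a5.2, a5.1], a8, Or.inl (Or.inl a6)⟩
  rintro ⟨t, b⟩ hx
  by_cases h : t ∈ E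
  · exact subset_closure ⟨hx, h⟩
  · cases b
    · exact key t _ _ isOpen_Iio (fun a => h (Or.inr ⟨⟨_, hx, rfl⟩, a⟩)) (tend_left t)
    · exact key t _ _ isOpen_Ioi (fun a => h (Or.inl (Or.inr ⟨⟨_, hx, rfl⟩, a⟩))) (tend_right t)

def jump (f : DA → ℝ) (t : ℝ) : ℝ := f ⟨t, true⟩ - f ⟨t, false⟩

theorem jump_lim {f : DA → ℝ} (hf : Continuous f) (t : ℝ) : Tendsto (jump f) (𝓝[≠] t) (𝓝 0) := by
  rw [← nhdsLT_sup_nhdsGT, tendsto_sup]
  constructor
  · exact sub_self (f ⟨t, false⟩) ▸ ((hf.tendsto _).comp (tend_left t true)).sub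
      ((hf.tendsto _).comp (tend_left t false))
  · exact sub_self (f ⟨t, true⟩) ▸ ((hf.tendsto _).comp (tend_right t true)).sub
      ((hf.tendsto _).comp (tend_right t false))

open Classical in
theorem fin_jump (a : ℝ → ℝ) (M : ℝ) (hM : ∀ t, |a t| ≤ M) (F : Finset ℝ) :
    ∃ f : DA → ℝ, Continuous f ∧ (∀ x, |f x| ≤ M) ∧ ∀ t, jump f t = if t ∈ F then a t else 0 := by
  induction F using Finset.induction_on with
  | empty => exact ⟨0, continuous_const, fun _ => by simpa using (abs_nonneg _).trans (hM 0),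
      fun t => by simp [jump]⟩
  | insert r F hr ih =>
    obtain ⟨f, h1, h2, h3⟩ := ih
    obtain ⟨ψ, a1, a2, a3⟩ := exists_continuous_zero_one_of_isClosed (isClosed_singleton (x := r))
      F.finite_toSet.isClosed (by simpa using hr)
    refine ⟨fun x => ψ x.1 * f x + (1 - ψ x.1) * (a r * step r x),
      ((ψ.continuous.comp cont_fst).mul h1).add ((continuous_const.sub
        (ψ.continuous.comp cont_fst)).mul (continuous_const.mul (cont_step r))), fun x => ?_,
      fun t => ?_⟩
    · have b1 : |a r * step r x| ≤ M := by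
        unfold step
        split_ifs
        · simpa using hM r
        · simpa using (abs_nonneg _).trans (hM 0)
      refine (abs_add_le _ _).trans ?_
      rw [abs_mul, abs_mul, abs_of_nonneg (a3 _).1, abs_of_nonneg (sub_nonneg.2 (a3 _).2)]
      nlinarith [h2 x, (a3 x.1).1, (a3 x.1).2]
    · have b1 : jump (step r) t = if t = r then 1 else 0 := by
        by_cases h : t = r
        · simp [jump, step, h]
        · simp [jump, step, h, Ne.symm h]
      have b2 : jump (fun x => ψ x.1 * f x + (1 - ψ x.1) * (a r * step r x)) t =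
          ψ t * jump f t + (1 - ψ t) * a r * jump (step r) t := by
        simp only [jump]
        ring
      rw [b2, b1, h3]
      by_cases h : t = r
      · simp [h, a1 (mem_singleton r)]
      · by_cases h' : t ∈ F
        · simp [h, h', a2 h']
        · simp [h, h']

theorem all_jump (a : ℝ → ℝ) (ha : Tendsto a cofinite (𝓝 0)) :
    ∃ f : DA → ℝ, Continuous f ∧ ∀ t, jump f t = a t := by
  classical
  have h1 : ∀ k : ℕ, {t | (1 / 2 : ℝ) ^ k ≤ |a t|}.Finite := fun k => by
    simpa using (Metric.tendsto_nhds.1 ha ((1 / 2) ^ k) (by positivity))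
  let c : ℕ → ℝ → ℝ := fun k t => if (1 / 2 : ℝ) ^ k ≤ |a t| then a t else 0
  have h2 : ∀ k : ℕ, ∃ f : DA → ℝ, Continuous f ∧ (∀ x, |f x| ≤ (1 / 2) ^ k) ∧
      ∀ t, jump f t = c (k + 1) t - c k t := by
    intro k
    have b : ∀ t, (1 / 2 : ℝ) ^ k ≤ |a t| → (1 / 2 : ℝ) ^ (k + 1) ≤ |a t| := fun t h =>
      (pow_le_pow_of_le_one (by norm_num) (by norm_num) k.le_succ).trans h
    obtain ⟨f, a1, a2, a3⟩ := fin_jump (fun t => c (k + 1) t - c k t) ((1 / 2) ^ k) (fun t => by
      simp only [c]
      split_ifs with c1 c2 c2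
      · simp
      · simpa using (not_le.1 c2).le
      · exact absurd (b t c2) c1
      · simp) (h1 (k + 1)).toFinset
    refine ⟨f, a1, a2, fun t => (a3 t).trans ?_⟩
    split_ifs with h
    · rfl
    · have h' : ¬ (1 / 2 : ℝ) ^ (k + 1) ≤ |a t| := by simpa using h
      simp only [c, if_neg h', if_neg (mt (b t) h'), sub_self]
  choose f f1 f2 f3 using h2
  obtain ⟨M, hM⟩ : ∃ M, ∀ t, |a t| ≤ M := by
    obtain ⟨M, hM⟩ := (ha.abs.isBoundedUnder_le.bddAbove_range_of_cofinite)
    exact ⟨M, fun t => hM ⟨t, rfl⟩⟩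
  obtain ⟨g, g1, -, g3⟩ := fin_jump a M hM (h1 0).toFinset
  have hs : ∀ x, Summable fun k => f k x := fun x =>
    Summable.of_norm_bounded summable_geometric_two fun k => f2 k x
  refine ⟨fun x => g x + ∑' k, f k x, g1.add (continuous_tsum f1 summable_geometric_two f2),
    fun t => ?_⟩
  have h3 := ((hs ⟨t, true⟩).hasSum.sub (hs ⟨t, false⟩).hasSum).tendsto_sum_nat
  have h4 : Tendsto (fun n => c n t - c 0 t) atTop (𝓝 (a t - c 0 t)) := by
    refine Tendsto.sub_const (tendsto_const_nhds.congr' ?_) _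
    by_cases h : a t = 0
    · simp [c, h]
    · filter_upwards [(tendsto_pow_atTop_nhds_zero_of_lt_one (r := (1 / 2 : ℝ)) (by norm_num)
        (by norm_num)).eventually_le_const (abs_pos.2 h)] with n hn
      simp only [c, if_pos hn]
  have h5 := tendsto_nhds_unique (h3.congr fun n =>
    (Finset.sum_congr rfl fun k _ => f3 k t).trans (Finset.sum_range_sub (fun k => c k t) n)) h4
  have h6 : jump g t = c 0 t := (g3 t).trans (by simp [c])
  simp only [jump] at h6 ⊢
  linarith

/-- the unit interval with the discrete topology -/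
structure D where
  val : ℝ
  prop : val ∈ Icc (0 : ℝ) 1

theorem D_inj : Function.Injective D.val := by
  rintro ⟨a, _⟩ ⟨b, _⟩ rfl
  rfl

instance : TopologicalSpace D := ⊥

instance : DiscreteTopology D := ⟨rfl⟩

theorem result : ∃ (X Y : Type) (_ : TopologicalSpace X) (_ : TopologicalSpace Y),
    T35Space X ∧ T35Space Y ∧ (∀ A : Set X, SeparableSpace A) ∧ ¬ SeparableSpace Y ∧
    ∃ φ : Cp X → Cp Y, Continuous φ ∧ IsOpenMap φ ∧ Function.Surjective φ := by
  classical
  have hφ : ∀ f : Cp DA, Continuous fun y : OnePoint D =>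
      f.1 ⟨-1, false⟩ + y.elim 0 fun t => jump f.1 t.1 := by
    intro f
    refine continuous_const.add ((OnePoint.continuous_iff_from_discrete _).2 fun U hU => ?_)
    have h1 : (Icc (0 : ℝ) 1 \ jump f.1 ⁻¹' U).Finite :=
      isCompact_Icc.finite_sdiff_of_mem_codiscreteWithin (mem_codiscreteWithin.2 fun t _ =>
        disjoint_principal_right.2 (mem_of_superset (jump_lim f.2 t hU) fun s hs h => h.2 hs))
    exact (h1.preimage D_inj.injOn).subset fun t ht => ⟨t.2, ht⟩
  let φ : Cp DA → Cp (OnePoint D) := fun f => ⟨_, hφ f⟩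
  let ext : (OnePoint D → ℝ) → ℝ → ℝ := fun g t =>
    if h : t ∈ Icc (0 : ℝ) 1 then g (D.mk t h) - g OnePoint.infty else 0
  have key : ∀ (g : Cp (OnePoint D)) (T : Finset ℝ) (v : ℝ → ℝ), ∃ h : Cp DA,
      (∀ t, jump h.1 t = ext g.1 t) ∧ ∀ t ∈ T, h.1 ⟨t, false⟩ = v t := by
    intro g T v
    obtain ⟨f, f1, f2⟩ := all_jump (ext g.1) fun U hU => by
      have h1 := ((OnePoint.continuous_iff_from_discrete _).1 g.2).sub_const (g.1 OnePoint.infty)
      rw [sub_self] at h1
      refine ((mem_cofinite.1 (h1 hU)).image D.val).subset fun t ht => ?_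
      by_cases h : t ∈ Icc (0 : ℝ) 1
      · exact ⟨⟨t, h⟩, by simpa only [ext, h, dif_pos, mem_compl_iff, mem_preimage] using ht, rfl⟩
      · exact absurd (by simpa only [ext, h, dif_neg, not_false_eq_true, mem_preimage] using
          mem_of_mem_nhds hU) ht
    refine ⟨⟨fun x => f x + (Lagrange.interpolate T id fun t => v t - f ⟨t, false⟩).eval x.1,
      f1.add ((Polynomial.continuous _).comp cont_fst)⟩, fun t => ?_, fun t ht => ?_⟩
    · rw [← f2]
      simp [jump]
    · have := Lagrange.eval_interpolate_at_node (fun t => v t - f ⟨t, false⟩)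
        (Set.injOn_id (T : Set ℝ)) ht
      simp only [id] at this ⊢
      rw [this]
      ring
  have key2 : ∀ (g : Cp (OnePoint D)) (h : Cp DA), (∀ t, jump h.1 t = ext g.1 t) →
      h.1 ⟨-1, false⟩ = g.1 OnePoint.infty → φ h = g := by
    intro g h h1 h2
    refine Subtype.ext (funext fun y => ?_)
    induction y using OnePoint.rec with
    | infty => simp [φ, h2]
    | coe t =>
      simp only [φ, h2, h1, ext, t.2, dif_pos, OnePoint.elim_some]
      simp
  refine ⟨DA, OnePoint D, inferInstance, inferInstance, emb_emb.t35Space, inferInstance, hsep,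
    fun ⟨S, h1, h2⟩ => ?_, φ, ?_, isOpenMap_iff_nhds_le.2 fun f U hU => ?_, fun g => ?_⟩
  · have h3 : (univ : Set D).Countable :=
      (h1.preimage OnePoint.coe_injective).mono fun t _ => by
        obtain ⟨_, ⟨_, rfl, rfl⟩, h⟩ := h2.inter_open_nonempty _
          (OnePoint.isOpenEmbedding_coe.isOpenMap {t} (isOpen_discrete _)) ⟨_, t, rfl, rfl⟩
        exact h
    have h4 : Countable (Icc (0 : ℝ) 1) :=
      (Set.Countable.mono (s₁ := Icc (0 : ℝ) 1) (s₂ := D.val '' univ) (fun t ht =>
        mem_image_of_mem D.val (mem_univ (D.mk t ht))) (h3.image D.val)).to_subtype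
    have h5 := Cardinal.mk_le_aleph0 (α := Icc (0 : ℝ) 1)
    rw [Cardinal.mk_Icc_real zero_lt_one] at h5
    exact h5.not_gt Cardinal.aleph0_lt_continuum
  · have h1 : ∀ x, Continuous fun f : Cp DA => f.1 x := fun x =>
      (continuous_apply x).comp continuous_subtype_val
    refine Continuous.subtype_mk (continuous_pi fun y => (h1 _).add ?_) _
    induction y using OnePoint.rec with
    | infty => exact continuous_const
    | coe t => exact (h1 _).sub (h1 _)
  · obtain ⟨V, hV, hU⟩ := (mem_nhds_induced Subtype.val f _).1 hU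
    rw [nhds_pi, Filter.mem_pi] at hV
    obtain ⟨S, hS, W, hW, hV⟩ := hV
    let l : DA → Cp (OnePoint D) → ℝ := fun x g => f.1 ⟨x.1, false⟩ +
      (g.1 OnePoint.infty - f.1 ⟨-1, false⟩) + if x.2 then if x.1 ∈ Icc (0 : ℝ) 1 then ext g.1 x.1
        else jump f.1 x.1 else 0
    have h1 : ∀ y, Continuous fun g : Cp (OnePoint D) => g.1 y := fun y =>
      (continuous_apply y).comp continuous_subtype_val
    have h2 : ∀ x, Continuous (l x) := by
      intro x
      refine (continuous_const.add ((h1 _).sub continuous_const)).add ?_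
      simp only [ext]
      split_ifs
      · exact (h1 _).sub (h1 _)
      · exact continuous_const
      · exact continuous_const
    have h3 : ∀ x, l x (φ f) = f.1 x := by
      rintro ⟨t, b⟩
      cases b
      · simp [l, φ]
      · by_cases h : t ∈ Icc (0 : ℝ) 1
        · simp only [l, φ, ext, h, dif_pos, if_true]
          simp [jump]
        · simp only [l, φ, h, if_true, if_false]
          simp [jump]
    filter_upwards [(eventually_all_finite hS).2 fun x _ =>
      ((h2 x).tendsto' _ _ (h3 x)).eventually_mem (hW x)] with g hg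
    obtain ⟨h, a1, a2⟩ := key ⟨g.1 - (φ f).1, g.2.sub (φ f).2⟩
      (insert (-1) (hS.toFinset.image fun x => x.1)) fun _ => g.1 OnePoint.infty - f.1 ⟨-1, false⟩
    have a3 := key2 _ h a1 (by rw [a2 _ (by simp)]; simp [φ])
    have a4 : φ ⟨f.1 + h.1, f.2.add h.2⟩ = g := by
      refine Subtype.ext (funext fun y => ?_)
      have := congrFun (congrArg Subtype.val a3) y
      induction y using OnePoint.rec with
      | infty => simp [φ] at this ⊢; linarith
      | coe t => simp [φ, jump] at this ⊢; linarith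
    rw [← a4]
    refine hU (hV fun x hx => ?_)
    convert hg x hx using 1
    obtain ⟨t, b⟩ := x
    have a5 := a2 t (Finset.mem_insert_of_mem (Finset.mem_image.2 ⟨_, hS.mem_toFinset.2 hx, rfl⟩))
    have a6 := a1 t
    cases b
    · simp [l, a5]
    · by_cases c : t ∈ Icc (0 : ℝ) 1
      · simp only [l, φ, ext, c, dif_pos, if_true, jump] at a6 ⊢
        simp at a6 ⊢
        linarith
      · simp only [l, ext, c, if_true, if_false, jump, dif_neg, not_false_eq_true] at a6 ⊢
        simp only [Pi.add_apply]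
        linarith
  · obtain ⟨h, a1, a2⟩ := key g {-1} fun _ => g.1 OnePoint.infty
    exact ⟨h, key2 g h a1 (a2 _ (by simp))⟩

end Pool.Agent.Results.MP_4cc686_gt.Arrow
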